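import Pool.Agent.R424.TG.Hdg
import Pool.Agent.R424.TG.Few
import Pool.Agent.T6.H41.NR.Near

/-!
# MP_0704bf_ag: Zilber-Pink for the variations of Hodge structure of the members of families of tuples of elliptic
curves at the rational approximations of a real number

**The variations.** Let `K ⊂ ℂ` be a countable field, let `P` be a system of polynomials in `s_1, …, s_N` with
coefficients in `K[t]`, and let `A_i`, `B_i` (`i ≤ n`) be polynomials in `s_1, …, s_N` with coefficients in `K[t]`. For
`t ∈ ℂ` let `S_t ⊂ ℂ^N` be the set of the points `s` with `P(s) = 0` and `4 A_i(s)³ + 27 B_i(s)² ≠ 0` for all `i` (`OnS`;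
the coefficients are evaluated at `t`). Over `S_t` there are the elliptic curves

  `E_i : y² = x³ + A_i x + B_i`

and the polarizable variation of Hodge structure `V_t = ⊕ R¹π_{i*} ℤ` (on the smooth part of `S_t`, if `S_t` is not
smooth). Every family of `n`-tuples of elliptic curves over varieties `S_t` depending on a parameter `t` is of this form
after shrinking the `S_t`. The period domain of `V_t` is the product of `n` upper half planes, `Γ = SL_2(ℤ)^n`, and its
quotient is `Y(1)^n = ℂ^n`; the period map `Φ` is given by the `j`-invariants (`period`). The Hodge subvarieties of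
`Y(1)^n` are its special subvarieties `Z` (`SpecialVariety`).

**The condition.** Let `E` be a finite system of polynomials in `x_1, …, x_n`, `s_1, …, s_N` with coefficients in `K[t]`,
which vanish at all points `(Φ(s), s)`, `s ∈ S_t`, for instance `P` and the `(4 A_i³ + 27 B_i²) x_i - 6912 A_i³`. For an
algebraic number `α` the set `Trop α E` consists of the points `w` of `(ℚ ∪ {∞})^(n+N)` such that for every polynomial of
`E` the minimum of the numbers `ord_α (coefficient) + β · w` (over the exponents `β` of its monomials) is attained at two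
different exponents or is infinite. The type of a special subvariety `Z` consists of the partition of the coordinates
which are not constant on `Z` into `r = dim Z` classes, and of the determinants `d_i > 0` of the matrices which define
`Z`. A point `w` is compatible with the type if `w_i ≥ 0` for the constant coordinates, and if for coordinates `i`, `j` in
the same class either `w_i ≥ 0` and `w_j ≥ 0`, or `w_i < 0`, `w_j < 0` and `d_i d_j w_i w_j` is the square of a rational
number. The condition on the family (`Family.general`) is that there is a finite set `D` of algebraic numbers, such that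
for every type of dimension `r < n - m` there is at least one `α ∈ D` such that `Trop α E` contains no compatible point.
Here `m` is an integer, the dimension of `Φ(S_t)`.

**The conclusion** for a parameter `t` (`Family.Good`) is that every irreducible constructible subset `W` of
`Φ(S_t) ∩ Z`, for every special subvariety `Z`, satisfies `dim W + (n - m) ≤ dim Z`. This says that
`codim Φ(Y) ≥ codim Φ(S_t) + codim Z` for all special subvarieties `Y` of `S_t` for `V_t` (`Y` a component of `Φ⁻¹(Z)`),
if `dim Φ(S_t) = m`. So there is no atypical special subvariety, except possibly those contained in the singular locus,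
a proper closed subset, in which every special subvariety is atypical by definition. (More generally the constant
coordinates of `Z` can be arbitrary numbers integral over the ring `ℤ[Γ]` generated by a given finite set `Γ` of numbers
algebraic over `K`.)

**Theorem.**
0. For every family of this kind at most `C (log B)^s` of the rational numbers of denominator `v ≤ B` and numerator at
   most `B` are exceptions.
1. There is a set of real numbers of Hausdorff dimension `0` such that for all `ξ` outside of it, for every family of this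
   kind over `K` and every base `b` only finitely many of the truncations `⌊b ^ k ξ⌋ / b ^ k` are exceptions.
2. There is a set of real numbers of Hausdorff dimension at most `1 / 2` such that for all `ξ` outside of it, for every
   family of this kind over `K` and every `κ` only finitely many rational `t` with `|t - ξ| ≤ κ / den(t) ^ 2` are
   exceptions.
3. Let `V` be a set of positive integers with `O(N ^ (σ + ε))` elements up to `N`, and `τ > 0`. There is a set of real
   numbers of Hausdorff dimension at most `σ / τ` such that for all `ξ` outside of it, for every family of this kind over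
   `K` and every `κ` only finitely many rational `t` with denominator in `V` and `|t - ξ| ≤ κ / den(t) ^ τ` are exceptions.
4. For almost all real `ξ` this holds for all `τ > σ` at the same time.

The starting file `TropicalWeierstrassFamilies` has finitely many exceptions among the elements of a finitely generated
field (ring), but needs three (two) elements `α ∈ D` for every type instead of one.
-/

set_option autoImplicit false

open MvPolynomial Filter Topology MeasureTheory
open Pool.Agent.R424.TG
open Pool.Agent.Y152.RP.FamM (evalAt NoAtypical)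
open Pool.Agent.T6.H41.NR (ExpCount Approx FewSet)

namespace Pool.Agent.Results.MP_0704bf_ag.ApproximationsOfReals

/-- A one-parameter family over `K` of `n`-tuples of elliptic curves over subvarieties of `ℂ^N`, in general position. -/
structure Family (K : Subfield ℂ) : Type 1 where
  /-- the number of the elliptic curves -/
  n : ℕ
  /-- the number of the coordinates `s` of the base -/
  N : ℕ
  /-- the dimension of the image of the period map -/
  m : ℕ
  /-- the index set of the equations of the base -/
  I : Type
  /-- the equations of the base -/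
  P : I → MvPolynomial (Fin N) (Polynomial K)
  /-- the coefficients of `x` in the Weierstrass equations -/
  A : Fin n → MvPolynomial (Fin N) (Polynomial K)
  /-- the constant coefficients of the Weierstrass equations -/
  B : Fin n → MvPolynomial (Fin N) (Polynomial K)
  /-- the number of the polynomials in the system `E` -/
  q : ℕ
  /-- the system `E` -/
  E : Fin q → MvPolynomial ((Fin n ⊕ Fin 0) ⊕ Fin N) (Polynomial K)
  /-- The polynomials of the system `E` vanish at the points `(Φ(s), s)`. -/
  vanish : ∀ (t : ℂ) (s : Fin N → ℂ), OnS (evalAt K t) P A B (fun j : Fin 0 => j.elim0) s → ∀ i,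
    eval₂ (evalAt K t) (Sum.elim (period (evalAt K t) A B (fun j : Fin 0 => j.elim0) s) s) (E i) = 0
  /-- For every type of special subvarieties of dimension less than `n - m` there is an algebraic number `α` in the
  finite set `D` such that the tropicalization at `α` has no compatible point. -/
  general : ∃ D : Finset ℂ, (∀ α ∈ D, IsAlgebraic ℚ α) ∧ Generic m 1 E D
  /-- the numbers which generate the ring `ℤ[Γ]` -/
  Γ : Finset ℂ
  algebraic : ∀ γ ∈ Γ, IsAlgebraic K γ

variable {K : Subfield ℂ}

/-- The member with the parameter `t` of the family has no atypical special subvariety outside of the singular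
locus. -/
def Family.Good (F : Family K) (t : ℂ) : Prop :=
  NoAtypicalHodge (algebraMap (Algebra.adjoin ℤ (F.Γ : Set ℂ)) ℂ) K F.m
    (image (evalAt K t) F.P F.A F.B fun j : Fin 0 => j.elim0)

/-- the codes of the families -/
abbrev Code (K : Subfield ℂ) : Type := Σ n : ℕ, Σ N : ℕ, Σ _m : ℕ, Σ q : ℕ,
  (Fin q → MvPolynomial ((Fin n ⊕ Fin 0) ⊕ Fin N) (Polynomial K)) × Finset {z : ℂ // IsAlgebraic K z}

lemma countable_code (K : Subfield ℂ) [Countable K] : Countable (Code K) := by
  have h1 : Countable {z : ℂ // IsAlgebraic K z} := (Algebraic.countable K ℂ).to_subtype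
  have h2 : Countable (Polynomial K) := by
    have h := Polynomial.cardinalMk_le_max (R := K)
    rw [← Cardinal.mk_le_aleph0_iff]
    exact h.trans (max_le (Cardinal.mk_le_aleph0_iff.2 inferInstance) le_rfl)
  have h3 : ∀ σ : Type, Countable σ → Countable (MvPolynomial σ (Polynomial K)) := by
    intro σ hσ
    have h := MvPolynomial.cardinalMk_le_max (σ := σ) (R := Polynomial K)
    rw [← Cardinal.mk_le_aleph0_iff]
    exact h.trans (max_le (max_le (Cardinal.mk_le_aleph0_iff.2 h2) (Cardinal.mk_le_aleph0_iff.2 hσ)) le_rfl)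
  have h4 : ∀ n N : ℕ, Countable (MvPolynomial ((Fin n ⊕ Fin 0) ⊕ Fin N) (Polynomial K)) := fun n N =>
    h3 _ inferInstance
  infer_instance

open Classical in
/-- the exceptional parameters of a code -/
noncomputable def bad (K : Subfield ℂ) (c : Code K) : Set ℚ :=
  {t | (∃ D : Finset ℂ, (∀ α ∈ D, IsAlgebraic ℚ α) ∧ Generic c.2.2.1 1 c.2.2.2.2.1 D) ∧
    ¬ NoAtypical (algebraMap (Algebra.adjoin ℤ ((c.2.2.2.2.2.image Subtype.val : Finset ℂ) : Set ℂ)) ℂ) K c.2.2.1
      (member ((t : ℚ) : ℂ) c.2.2.2.2.1)}

theorem few_bad (K : Subfield ℂ) [Countable K] (c : Code K) : FewSet (bad K c) := by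
  classical
  obtain ⟨n, N, m, q, E, Γ⟩ := c
  by_cases hg : ∃ D : Finset ℂ, (∀ α ∈ D, IsAlgebraic ℚ α) ∧ Generic m 1 E D
  · obtain ⟨D, hD, hgen⟩ := hg
    obtain ⟨C, s, h⟩ := fewT K (Fin q) n 0 N m E D hD (Γ.image Subtype.val)
      (fun γ hγ => by
        obtain ⟨z, -, rfl⟩ := Finset.mem_image.1 hγ
        exact z.2) hgen
    exact ⟨C, s, fun B v hB hv T hT => h B v hB hv T fun t ht =>
      ⟨(hT t ht).1, (hT t ht).2.1, (hT t ht).2.2.2⟩⟩
  · refine ⟨0, 0, fun B v _ _ T hT => ?_⟩
    have : T = ∅ := by
      rw [Finset.eq_empty_iff_forall_notMem]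
      intro t ht
      exact hg (hT t ht).2.2.1
    rw [this]
    simp

/-- the code of a family -/
theorem exists_code (F : Family K) [Countable K] : ∃ c : Code K, ∀ t : ℚ, ¬ F.Good (t : ℂ) → t ∈ bad K c := by
  classical
  refine ⟨⟨F.n, F.N, F.m, F.q, F.E, F.Γ.subtype fun z => IsAlgebraic K z⟩, fun t ht => ⟨F.general, fun h => ht ?_⟩⟩
  have e : ((F.Γ.subtype fun z => IsAlgebraic K z).image Subtype.val : Finset ℂ) = F.Γ := by
    ext z
    simp only [Finset.mem_image, Finset.mem_subtype, Subtype.exists, exists_and_right, exists_eq_right]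
    exact ⟨fun ⟨_, h⟩ => h, fun h => ⟨F.algebraic z h, h⟩⟩
  simp only at h
  rw [e] at h
  exact noAtypicalHodge_of h (image_subset _ F.P F.A F.B _ F.E (F.vanish _))

/-- Zilber-Pink for the variations of Hodge structure of the members of the one-parameter families of tuples of elliptic
curves at the rational approximations of a real number. -/
theorem result (K : Subfield ℂ) [Countable K] :
    (∀ F : Family K, ∃ C s : ℕ, ∀ B v : ℕ, 2 ≤ B → v ≤ B → ∀ T : Finset ℚ,
      (∀ t ∈ T, t.den = v ∧ |t.num| ≤ B ∧ ¬ F.Good ((t : ℚ) : ℂ)) → (T.card : ℝ) ≤ C * Real.log B ^ s) ∧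
    (∃ X : Set ℝ, dimH X = 0 ∧ ∀ ξ : ℝ, ξ ∉ X → ∀ (F : Family K) (b : ℕ), 2 ≤ b →
      ∃ k₀ : ℕ, ∀ k : ℕ, k₀ ≤ k → F.Good (((((⌊(b : ℝ) ^ k * ξ⌋ : ℤ) : ℚ) / (b : ℚ) ^ k : ℚ)) : ℂ)) ∧
    (∃ X : Set ℝ, dimH X ≤ ENNReal.ofReal (1 / 2) ∧ ∀ ξ : ℝ, ξ ∉ X → ∀ (F : Family K) (κ : ℝ),
      {t : ℚ | |(t : ℝ) - ξ| ≤ κ / (t.den : ℝ) ^ 2 ∧ ¬ F.Good ((t : ℚ) : ℂ)}.Finite) ∧
    (∀ (V : Set ℕ) (σ τ : ℝ), 0 ≤ σ → 0 < τ → ExpCount V σ →
      ∃ X : Set ℝ, dimH X ≤ ENNReal.ofReal (σ / τ) ∧ ∀ ξ : ℝ, ξ ∉ X → ∀ (F : Family K) (κ : ℝ),
        {t ∈ Approx V τ κ ξ | ¬ F.Good ((t : ℚ) : ℂ)}.Finite) ∧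
    (∀ (V : Set ℕ) (σ : ℝ), 0 ≤ σ → ExpCount V σ → ∀ᵐ ξ : ℝ, ∀ τ : ℝ, σ < τ → ∀ (F : Family K) (κ : ℝ),
      {t ∈ Approx V τ κ ξ | ¬ F.Good ((t : ℚ) : ℂ)}.Finite) := by
  have hc : Countable (Code K) := countable_code K
  have hfew := few_bad K
  refine ⟨fun F => ?_, ?_, ?_, ?_, ?_⟩
  · obtain ⟨c, h⟩ := exists_code F
    obtain ⟨C, s, h1⟩ := hfew c
    exact ⟨C, s, fun B v hB hv T hT => h1 B v hB hv T fun t ht =>
      ⟨(hT t ht).1, (hT t ht).2.1, h t (hT t ht).2.2⟩⟩
  · obtain ⟨X, h1, h2⟩ := Pool.Agent.T6.H41.NR.trunc_all (bad K) hfew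
    refine ⟨X, h1, fun ξ hξ F b hb => ?_⟩
    obtain ⟨c, h⟩ := exists_code F
    obtain ⟨k₀, h3⟩ := h2 ξ hξ c b hb
    refine ⟨k₀, fun k hk => ?_⟩
    by_contra hcon
    exact h3 k hk (h _ hcon)
  · obtain ⟨X, h1, h2⟩ := Pool.Agent.T6.H41.NR.conv_all (bad K) hfew
    refine ⟨X, h1, fun ξ hξ F κ => ?_⟩
    obtain ⟨c, h⟩ := exists_code F
    refine (h2 ξ hξ c κ).subset ?_
    rintro t ⟨h3, h4⟩
    exact ⟨h3, h t h4⟩
  · intro V σ τ hσ hτ hV
    obtain ⟨X, h1, h2⟩ := Pool.Agent.T6.H41.NR.dim_all (bad K) hfew V σ τ hσ hτ hV
    refine ⟨X, h1, fun ξ hξ F κ => ?_⟩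
    obtain ⟨c, h⟩ := exists_code F
    refine (h2 ξ hξ c κ).subset ?_
    rintro t ⟨h3, h4⟩
    exact ⟨h3, h t h4⟩
  · intro V σ hσ hV
    filter_upwards [Pool.Agent.T6.H41.NR.ae_all (bad K) hfew V σ hσ hV] with ξ hξ τ hτ F κ
    obtain ⟨c, h⟩ := exists_code F
    refine (hξ τ hτ c κ).subset ?_
    rintro t ⟨h3, h4⟩
    exact ⟨h3, h t h4⟩

end Pool.Agent.Results.MP_0704bf_ag.ApproximationsOfReals
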