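import Pool.Agent.T6.H20.MT.Deg
import Pool.Agent.R424.TG.Hdg

/-!
# MP_0704bf_ag: Zilber-Pink for the variations of Hodge structure of all but finitely many of the
members of bounded degree of one-parameter families of tuples of elliptic curves

**The variations.** Let `K ⊂ ℂ` be a countable field, let `P` be a system of polynomials in
`s_1, …, s_N` with coefficients in `K[t]`, and let `A_i`, `B_i` (`i ≤ n`) be polynomials in
`s_1, …, s_N` with coefficients in `K[t]`. For `t ∈ ℂ` let `S_t ⊂ ℂ^N` be the set of the points `s` with
`P(s) = 0` and `4 A_i(s)³ + 27 B_i(s)² ≠ 0` for all `i` (`OnS`; the coefficients are evaluated at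
`t`). Over `S_t` there are the elliptic curves

  `E_i : y² = x³ + A_i x + B_i`

and the polarizable variation of Hodge structure `V_t = ⊕ R¹π_{i*} ℤ` (on the smooth part of `S_t`, if
`S_t` is not smooth). Every family of `n`-tuples of elliptic curves over varieties `S_t` depending on a
parameter `t` is of this form after shrinking the `S_t`. The period domain of `V_t` is the product
`D` of `n` upper half planes, `Γ = SL_2(ℤ)^n`. By the elliptic modular function `jj = j = E₄³ / Δ` the
quotient `Γ \ D` is identified with `Y(1)^n = ℂ^n`, and the period map `Φ` is given by the
`j`-invariants `6912 A_i³ / (4 A_i³ + 27 B_i²)` (`period`). The Hodge subvarieties `Γ' \ D'` of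
`Γ \ D` are the special subvarieties `Z` of `Y(1)^n` (`SpecialVariety`): `Z.locus` is the set of the
points `x` with `x_i` a constant for the constant coordinates, and `x_i = j (g_i z_c)` for the
coordinates of class `c`, where `z_1, …, z_r` are free in the upper half plane and `g_i` is a fixed
integral matrix of positive determinant. (The constants are special points, or more generally
integral over the ring `ℤ[Γ]` generated by a given finite set `Γ` of numbers algebraic over `K`.)

**Tropicalization.** Let `E` be a finite system of polynomials in `x_1, …, x_n`, `s_1, …, s_N` with
coefficients in `K[t]`, which vanish at all points `(Φ(s), s)`, `s ∈ S_t`. For instance `E` consists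
of `P` and of the polynomials `(4 A_i³ + 27 B_i²) x_i - 6912 A_i³`, but one can add other polynomials
with this property. For a rational number `α` the set `Trop α E` consists of the points `w` of
`(ℚ ∪ {∞})^(n+N)` such that for every polynomial of the system the minimum of the numbers
`ord_α (coefficient) + β · w` (over the exponents `β` of its monomials) is attained at two different
exponents or is infinite.

**Types of special subvarieties.** A special subvariety `Z` of `Y(1)^n` has a type `(cls, d)`: the
partition `cls` of the coordinates which are not constant on `Z` into `r = dim Z` classes, and the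
determinants `d_i > 0` of the matrices which define `Z`. A point `w` is compatible with the type
(`Compatible`) if `w_i ≥ 0` for the constant coordinates, and for coordinates `i`, `j` in the same
class either `w_i ≥ 0` and `w_j ≥ 0`, or `w_i < 0`, `w_j < 0` and `d_i d_j w_i w_j` is the square of a
rational number. (In the Lean statement there are `0` torus coordinates and the type has a third
entry `L`, a subspace of `ℚ^0`.)

**Theorem.** Let `m` be an integer, the dimension of `Φ(S_t)`, let `δ ≥ 1`, and let `D` be a finite set of
rational numbers, such that for every type of dimension `r < n - m` there are at least `2 δ + 1`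
elements `α` of `D` such that `Trop α E` contains no compatible point (`Generic`). Then for all but
finitely many of the algebraic numbers `t` of degree at most `δ` over `ℚ` (in all number fields of
degree at most `δ` at the same time) every irreducible constructible subset `W` of
`Φ(S_t) ∩ Γ' \ D'` satisfies `dim W + (n - m) ≤ dim Γ' \ D'` (`NoAtypicalHodge`).

This says that `codim Φ(Z) ≥ codim Φ(S_t) + codim Γ' \ D'` for all special subvarieties `Z` of `S_t`
for `V_t` (`Z` a component of `Φ⁻¹(Γ' \ D')`), if `dim Φ(S_t) = m`. So there is no atypical special
subvariety, except possibly those contained in the singular locus `S^sing`, a proper closed subset,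
in which every special subvariety is atypical by definition. For `Z = S_t` one gets that
`Φ(S_t)` is contained in no proper special subvariety if `n > m`.

The starting file `TropicalWeierstrassFamilies` has finitely many exceptions among the parameters in
one fixed finitely generated field, and nothing about all number fields of a given degree; the
exceptional set found there is finite for each field, but the number of the fields is infinite.
The number `2 δ + 1` is natural: `t` of degree `δ` can have unit values of `t - α` at `2 δ` points `α`.

The proof: let `G` be the minimal polynomial of `t`. By the theorem on `S`-unit equations (starting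
files `Y152.BD`) for all but finitely many `t` of degree at most `δ` the value of `G` at `α` has a
large prime divisor for all but at most `2 δ` of the `α ∈ D`. For such `α` there is a place of `ℂ`
over a large prime at which `t` is near to `α`, and it can be changed such that given algebraically
independent `j`-invariants are units. The values of the coordinates of a point `(Φ(s), s)` with
`Φ(s) ∈ Z` at this place give a point of `Trop α E` which is compatible with a type of smaller
dimension.
-/

set_option autoImplicit false

namespace Pool.Agent.Results.MP_0704bf_ag.BoundedDegreeWeierstrassFamilies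

open MvPolynomial Pool.Agent.R424.TG
open Pool.Agent.Y152.RP.FamM (evalAt)

/-- `t` is algebraic over the rational numbers, of degree at most `δ`. -/
def DegreeAtMost (δ : ℕ) (t : ℂ) : Prop :=
  ∃ F : Polynomial ℤ, F ≠ 0 ∧ F.natDegree ≤ δ ∧ Polynomial.aeval t F = 0

/-- Zilber-Pink for the variations of Hodge structure of all but finitely many of the members of
bounded degree of arbitrary one-parameter families of `n`-tuples of elliptic curves. -/
theorem result (K : Subfield ℂ) [Countable K] (κ₀ κ : Type) [Finite κ] (n N m δ : ℕ)
    (P : κ₀ → MvPolynomial (Fin N) (Polynomial K))
    (A B : Fin n → MvPolynomial (Fin N) (Polynomial K))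
    (E : κ → MvPolynomial ((Fin n ⊕ Fin 0) ⊕ Fin N) (Polynomial K))
    (hE : ∀ (t : ℂ) (s : Fin N → ℂ), OnS (evalAt K t) P A B (fun j : Fin 0 => j.elim0) s → ∀ q,
      eval₂ (evalAt K t)
        (Sum.elim (period (evalAt K t) A B (fun j : Fin 0 => j.elim0) s) s) (E q) = 0)
    (D : Finset ℚ) (Γ : Finset ℂ) (hΓ : ∀ γ ∈ Γ, IsAlgebraic K γ)
    (hgen : Generic m (2 * δ + 1) E (D.image fun α : ℚ => (α : ℂ))) :
    {t : ℂ | DegreeAtMost δ t ∧
      ¬ NoAtypicalHodge (algebraMap (Algebra.adjoin ℤ (Γ : Set ℂ)) ℂ) K m
        (image (evalAt K t) P A B fun j : Fin 0 => j.elim0)}.Finite := by
  have h1 := Pool.Agent.T6.H20.MT.degT K κ n 0 N m δ E D Γ hΓ hgen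
  refine h1.subset ?_
  rintro t ⟨ht, hno⟩
  exact ⟨ht, fun h => hno (noAtypicalHodge_of h (image_subset t P A B _ E (hE t)))⟩

end Pool.Agent.Results.MP_0704bf_ag.BoundedDegreeWeierstrassFamilies
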