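import Pool.Agent.T6.H15.MH.Line
import Pool.Agent.T6.H15.MH.Main

/-!
# MP_0704bf_ag: the Zilber–Pink conjecture for sums of variations of elliptic curves is equivalent to
the same for the powers of one hypersurface of `Y(1)^8`

**The variations.** The elliptic modular function `j` identifies the quotient `Γ \ D`, `D` a product of
upper half planes indexed by the finite set `ι` and `Γ = SL_2(ℤ)^ι`, with `Y(1)^ι = ℂ^ι`. Let `S ⊂ ℂ^ι`
be an irreducible closed subvariety (`IsVariety`). On a nonempty open subset of `S` there are elliptic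
curves `E_i` with `j(E_i) = x_i`, and `V = ⊕ R¹π_{i*} ℤ` is a polarizable variation of Hodge structure
whose period map is the inclusion of `S` in `Y(1)^ι`.

The Hodge structure `⊕ H¹(E_i)` over the point `x` has a Mumford–Tate domain of dimension `mtDim x`, the
number of isogeny classes of the elliptic curves `E_i` without complex multiplication. For a closed
irreducible subvariety `Z` of `S` the dimension `domainDim Z` of the generic Mumford–Tate domain `D'` is
the maximum of `mtDim x` over the points `x` of `Z` (it is attained at all very general points). If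
`Z ⊂ Z'` then the generic Mumford–Tate groups are equal if and only if the dimensions of the domains are.
So `Z` is special (`IsSpecial`) if it is maximal among the closed irreducible subvarieties of `S` with the
same generic Mumford–Tate domain. It is atypical (`IsAtypical`) if
`codim_{Γ\D} Z < codim_{Γ\D} S + codim_{Γ\D} Γ'\D'`, where `D` now is the generic domain of `S`.
The defect of `Y` is `domainDim Y - dim Y`.

**The hypersurface.** Let `H ⊂ Y(1)^8` be the hypersurface `x₆ - x₇ = (x₀ - x₁) (x₂ - x₃) + (x₄ - x₅)`. We
consider its powers `H^K ⊂ Y(1)^{8K}`, varieties of dimension `7 K` and defect `K`.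

**Theorem.** The following are equivalent:
1. Q1 for all `S ⊂ Y(1)^n` and all `n`: only finitely many atypical special subvarieties of `S` are
   maximal.
2. Q1 for the varieties `S = H^K`, for all `K`.
3. Q1 for `S = H^K`, for infinitely many `K`.
4. For every `ε > 0` there are infinitely many `K` such that the *points* `z` of `H^K` with
   `mtDim z ≤ (1 - ε) K` are contained in finitely many closed irreducible `Y ⊂ H^K` of defect `< K`.

So the conjecture for all subvarieties of all products of modular curves follows from the conjecture for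
a single sequence of explicit varieties, the powers of one hypersurface of `Y(1)^8`.

The proof of 4 ⟹ 1: if the atypical points are dense in `V ⊂ Y(1)^h`, then the points of excess `k` are
dense in the fibred power `V^k` over the constant coordinates. Let `x_s` be a transcendence basis of the
coordinates and `f_b(x_s, x_b) = 0` an equation for each of the other coordinates. Each of the `f_b` is
computed by an arithmetic circuit with the single operation `p q + r`, in which each polynomial `p` is
represented by a masked pair `(p + m, m)`, `m` a new free variable. So no accidental relations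
between the coordinates arise: translations by nonzero numbers are not given by isogenies (this is
deduced from the growth of `j`), and all masked values are pairwise not isogenous at a very
general point. The masks are free, so they can be special, and `k` copies of the circuit embed a
variety over `V^k` with a dense set of points with many isogenies in `H^K`, where `K` is the number of
gates. Conversely each closed irreducible `Y ⊂ H^K` which contains the image has defect at least `K`:
one may replace `Y` by its intersection with the smallest special subvariety which contains the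
image, then the equations of the gates hold between its coordinates, so that the coordinates `x_s` and
the masks of each copy and the parameters of the circuits determine the other coordinates up to
finitely many possibilities, and this is exactly the bound for the dimension which is needed. So the
dense set of points is not contained in finitely many closed subsets of defect less than `K`.
-/

set_option autoImplicit false

open UpperHalfPlane ModularForm MvPolynomial

namespace Pool.Agent.Results.MP_0704bf_ag.PowersOfOneHypersurface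

/-- The elliptic modular function. -/
noncomputable def j (τ : ℍ) : ℂ := E₄ τ ^ 3 / discriminant τ

/-- `x` and `y` are the `j`-invariants of isogenous elliptic curves: `x = j(τ)`, `y = j(g τ)` for an
integral matrix `g` of positive determinant. -/
def Isogenous (x y : ℂ) : Prop := ∃ (τ w : ℍ) (a b c d : ℤ), 0 < a * d - b * c ∧
  (w : ℂ) * (c * τ + d) = a * τ + b ∧ x = j τ ∧ y = j w

/-- `x` is the `j`-invariant of an elliptic curve with complex multiplication. -/
def IsCM (x : ℂ) : Prop := ∃ (τ : ℍ) (a b c : ℤ), a ≠ 0 ∧ (a : ℂ) * (τ : ℂ) ^ 2 + b * τ + c = 0 ∧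
  x = j τ

variable {ι : Type}

/-- The dimension of the Mumford–Tate domain of `⊕ H¹(E_i)`, `j(E_i) = x_i`: the number of isogeny
classes of the curves `E_i` without complex multiplication. -/
noncomputable def mtDim (x : ι → ℂ) : ℕ :=
  Set.ncard {C : Set ι | ∃ i, ¬ IsCM (x i) ∧ C = {k | Isogenous (x i) (x k)}}

/-- `S` is an irreducible closed subvariety of `ℂ^ι`. -/
def IsVariety (S : Set (ι → ℂ)) : Prop :=
  (vanishingIdeal ℂ S).IsPrime ∧ zeroLocus ℂ (vanishingIdeal ℂ S) ⊆ S

/-- The dimension: the transcendence degree of the coordinate ring. -/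
noncomputable def dim (S : Set (ι → ℂ)) : ℕ :=
  Cardinal.toNat (Algebra.trdeg ℂ (MvPolynomial ι ℂ ⧸ vanishingIdeal ℂ S))

/-- The dimension of the generic Mumford–Tate domain. -/
noncomputable def domainDim (S : Set (ι → ℂ)) : ℕ := sSup (mtDim '' S)

/-- The defect. -/
noncomputable def defect (S : Set (ι → ℂ)) : ℤ := domainDim S - dim S

/-- `Z` is a special subvariety of `S`. -/
def IsSpecial (S Z : Set (ι → ℂ)) : Prop :=
  IsVariety Z ∧ Z ⊆ S ∧
    ∀ Z', IsVariety Z' → Z ⊆ Z' → Z' ⊆ S → domainDim Z' = domainDim Z → Z' = Z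

/-- `Z` is an atypical special subvariety of `S`:
`codim Z < codim S + codim D'` in the generic domain of `S`. -/
def IsAtypical (S Z : Set (ι → ℂ)) : Prop :=
  IsSpecial S Z ∧ (domainDim S - dim Z : ℤ) <
    (domainDim S - dim S : ℤ) + (domainDim S - domainDim Z : ℤ)

/-- Only finitely many atypical special subvarieties of `S` are maximal. -/
def Q1 (S : Set (ι → ℂ)) : Prop := {Z | Maximal (IsAtypical S) Z}.Finite

/-- The power `H^K` of the hypersurface `x₆ - x₇ = (x₀ - x₁) (x₂ - x₃) + (x₄ - x₅)` of `Y(1)^8`. -/
def H (K : ℕ) : Set (Fin K × Fin 8 → ℂ) :=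
  {z | ∀ i, z (i, 6) - z (i, 7) =
    (z (i, 0) - z (i, 1)) * (z (i, 2) - z (i, 3)) + (z (i, 4) - z (i, 5))}

open Pool.Agent.T6.H15

theorem ideal_eq (S : Set (ι → ℂ)) : vanishingIdeal ℂ S = ZP.idealOf S := by
  ext p
  rw [mem_vanishingIdeal_iff, ZP.mem_idealOf]
  simp only [aeval_eq_eval]

theorem isCM_iff (x : ℂ) : IsCM x ↔ MZ.Singular x := by
  constructor
  · rintro ⟨τ, a, b, c, ha, h, hx⟩
    exact ⟨τ, ⟨a, b, c, ha, h⟩, hx⟩
  · rintro ⟨τ, ⟨a, b, c, ha, h⟩, hx⟩
    exact ⟨τ, a, b, c, ha, h, hx⟩

theorem mtDim_eq (x : ι → ℂ) : mtDim x = MZ.ncl MZ.Isog {x | MZ.Singular x} x := by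
  unfold mtDim MZ.ncl
  congr 1
  ext C
  refine exists_congr fun i => ?_
  rw [isCM_iff]
  rfl

theorem domainDim_eq (S : Set (ι → ℂ)) :
    domainDim S = MZ.gd MZ.Isog {x | MZ.Singular x} S := by
  unfold domainDim MZ.gd
  congr 1
  apply Set.image_congr
  intro x _
  exact mtDim_eq x

theorem dim_eq (S : Set (ι → ℂ)) : dim S = ZP.dim S := by
  unfold dim ZP.dim
  rw [ideal_eq]

theorem isVariety_iff (S : Set (ι → ℂ)) : IsVariety S ↔ MZ.IsVar S := by
  unfold IsVariety
  rw [ideal_eq]
  constructor
  · rintro ⟨h1, h2⟩
    refine ⟨h1, fun x hx => h2 ?_⟩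
    rw [mem_zeroLocus_iff]
    intro p hp
    rw [aeval_eq_eval]
    exact hx p hp
  · rintro ⟨h1, h2⟩
    refine ⟨h1, fun x hx => h2 x fun p hp => ?_⟩
    rw [mem_zeroLocus_iff] at hx
    rw [← aeval_eq_eval]
    exact hx p hp

theorem isSpecial_iff (S Z : Set (ι → ℂ)) :
    IsSpecial S Z ↔ MZ.Special MZ.Isog {x | MZ.Singular x} S Z := by
  unfold IsSpecial MZ.Special
  simp only [isVariety_iff, domainDim_eq]

theorem isAtypical_iff (S Z : Set (ι → ℂ)) :
    IsAtypical S Z ↔ MZ.Special MZ.Isog {x | MZ.Singular x} S Z ∧
      MZ.Atyp MZ.Isog {x | MZ.Singular x} S Z := by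
  unfold IsAtypical MZ.Atyp
  rw [isSpecial_iff, domainDim_eq, domainDim_eq, dim_eq, dim_eq]
  refine and_congr_right fun _ => ?_
  constructor <;> intro h <;> omega

theorem maximal_iff (S Z : Set (ι → ℂ)) : Maximal (IsAtypical S) Z ↔
    (MZ.Special MZ.Isog {x | MZ.Singular x} S Z ∧ MZ.Atyp MZ.Isog {x | MZ.Singular x} S Z) ∧
      ∀ W', MZ.Special MZ.Isog {x | MZ.Singular x} S W' →
        MZ.Atyp MZ.Isog {x | MZ.Singular x} S W' → Z ⊆ W' → W' = Z := by
  unfold Maximal
  simp only [isAtypical_iff]
  refine and_congr_right fun _ => ?_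
  constructor
  · intro h W h1 h2 h3
    exact Set.Subset.antisymm (h ⟨h1, h2⟩ h3) h3
  · rintro h W ⟨h1, h2⟩ h3
    exact (h W h1 h2 h3).le

theorem q1_iff (S : Set (ι → ℂ)) : Q1 S ↔ MZ.FinMax MZ.Isog {x | MZ.Singular x} S := by
  unfold Q1 MZ.FinMax
  simp only [maximal_iff]

theorem defect_lt_iff (Y : Set (ι → ℂ)) (K : ℕ) : defect Y < K ↔
    MZ.gd MZ.Isog {x | MZ.Singular x} Y < K + ZP.dim Y := by
  unfold defect
  rw [domainDim_eq, dim_eq]
  omega

/-- Q1 for all subvarieties of all `Y(1)^n` is equivalent to Q1 for the powers `H^K` of one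
hypersurface of `Y(1)^8`, for all `K` or for infinitely many `K`, and to the following: for every
`ε > 0` and infinitely many `K` the points of `H^K` with at most `(1 - ε) K` isogeny classes without
complex multiplication are contained in finitely many closed subvarieties of defect less than `K`. -/
theorem result : List.TFAE [
      ∀ (n : ℕ) (S : Set (Fin n → ℂ)), IsVariety S → Q1 S,
      ∀ K : ℕ, Q1 (H K),
      ∀ m : ℕ, ∃ K, m ≤ K ∧ Q1 (H K),
      ∀ ε : ℝ, 0 < ε → ∀ m : ℕ, ∃ K, m ≤ K ∧
        ∃ 𝒴 : Set (Set (Fin K × Fin 8 → ℂ)), 𝒴.Finite ∧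
          (∀ Y ∈ 𝒴, IsVariety Y ∧ Y ⊆ H K ∧ defect Y < K) ∧
          ∀ z ∈ H K, (mtDim z : ℝ) ≤ (1 - ε) * K → ∃ Y ∈ 𝒴, z ∈ Y] := by
  have h' := MH.main MZ.corr fun D hD => MH.shift_isog hD
  have h4 : (∀ ε : ℝ, 0 < ε → ∀ m : ℕ, ∃ K, m ≤ K ∧
        ∃ 𝒴 : Set (Set (Fin K × Fin 8 → ℂ)), 𝒴.Finite ∧
          (∀ Y ∈ 𝒴, IsVariety Y ∧ Y ⊆ H K ∧ defect Y < K) ∧
          ∀ z ∈ H K, (mtDim z : ℝ) ≤ (1 - ε) * K → ∃ Y ∈ 𝒴, z ∈ Y) ↔
      (∀ ε : ℝ, 0 < ε → ∀ m : ℕ, ∃ K, m ≤ K ∧
        MH.PtCov MZ.Isog {x | MZ.Singular x} (Fin K) ((1 - ε) * K)) := by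
    refine forall_congr' fun ε => ?_
    refine imp_congr_right fun hε => ?_
    refine forall_congr' fun m => ?_
    refine exists_congr fun K => ?_
    refine and_congr_right fun _ => ?_
    unfold MH.PtCov
    refine exists_congr fun 𝒴 => ?_
    simp only [isVariety_iff, defect_lt_iff, mtDim_eq, Fintype.card_fin]
    rfl
  rw [h4]
  simp only [isVariety_iff, q1_iff]
  exact h'

end Pool.Agent.Results.MP_0704bf_ag.PowersOfOneHypersurface
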