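import Pool.Agent.T6.H15.MZ.J
import Pool.Agent.T6.H15.MZ.Main

/-!
# MP_0704bf_ag: the Zilber–Pink conjecture for sums of variations of elliptic curves is equivalent to
non-density of very strongly atypical points

**The variations.** The elliptic modular function `j` identifies the quotient `Γ \ D`, `D` a product of
`n` upper half planes and `Γ = SL_2(ℤ)^n`, with `Y(1)^n = ℂ^n`. Let `S ⊂ ℂ^n` be an irreducible closed
subvariety (`IsVariety`). On a nonempty open subset of `S` there are elliptic curves `E_i` with
`j(E_i) = x_i`, and `V = ⊕ R¹π_{i*} ℤ` is a polarizable variation of Hodge structure whose period map is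
the inclusion of `S` in `Y(1)^n`.

The Hodge structure `⊕ H¹(E_i)` over the point `x` has a Mumford–Tate domain of dimension `mtDim x`, the
number of isogeny classes of the elliptic curves `E_i` without complex multiplication. For a closed
irreducible subvariety `Z` of `S` the dimension `domainDim Z` of the generic Mumford–Tate domain `D'` is
the maximum of `mtDim x` over the points `x` of `Z` (it is attained at all very general points). If
`Z ⊂ Z'` then the generic Mumford–Tate groups are equal if and only if the dimensions of the domains are.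
So `Z` is special (`IsSpecial`) if it is maximal among the closed irreducible subvarieties of `S` with the
same generic Mumford–Tate domain. It is atypical (`IsAtypical`) if
`codim_{Γ\D} Z < codim_{Γ\D} S + codim_{Γ\D} Γ'\D'`, where `D` now is the generic domain of `S`.
(The smooth locus `S°` of `S` has no singular points in the sense of the problem, as the period map is the
inclusion. The atypical special subvarieties of `S°` are those of `S` which meet `S°`.)

**Theorem.** Let `φ : ℕ → ℕ` be a function with values `≥ 1` and `φ(n) / n → 0`. The following are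
equivalent:
1. Q1 for all `S ⊂ Y(1)^n` and all `n`: only finitely many atypical special subvarieties of `S` are
   maximal.
2. For all `n` and `S ⊂ Y(1)^n` there is a proper closed subset `{f = 0} ∩ S` of `S` such that
   only finitely many maximal atypical special subvarieties are not contained in it. (So it suffices to
   prove Q1 on some nonempty open subset of each `S`, for instance on its smooth locus.)
3. For all `n` and all `V ⊂ Y(1)^n` whose generic Mumford–Tate domain is the whole of `D`, the set of
   points `x ∈ V` whose Mumford–Tate domain has codimension `≥ dim V + 1` is not Zariski dense in `V`.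
4. For infinitely many `n` the points with a Mumford–Tate domain of codimension `≥ dim V + φ(n)` are
   not Zariski dense in `V`, for all such `V ⊂ Y(1)^n`.
5. For every `ε > 0` there are infinitely many `n` such that the points with a Mumford–Tate domain of
   codimension `≥ dim V + ε n` are not Zariski dense in `V`, for all such `V ⊂ Y(1)^n`.

Moreover the condition of 5 for one `ε` implies Q1 for all `S ⊂ Y(1)^n` with `n < 1 / ε`.

So instead of all special subvarieties violating the expected dimension by one, it suffices to exclude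
the Zariski density of points which violate it by a fixed proportion of the dimension `n` of the period
domain (for instance by `√n`).

The proof: if the atypical points are dense in `V`, then in the fibred power `V^k` over the constant
coordinates the `k`-tuples of atypical points are dense, they have excess at least `k`, and the generic
domain is the product. The positive dimensional atypical subvarieties are reduced to points by
intersecting them with CM points in `dim Z` of the coordinates, and Q1 is deduced from non-density by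
Noetherian induction. For this one needs the modular polynomials, surjectivity of `j`, and very general
points, which are constructed in the imported files.
-/

set_option autoImplicit false

open UpperHalfPlane ModularForm MvPolynomial

namespace Pool.Agent.Results.MP_0704bf_ag.StronglyAtypicalPoints

/-- The elliptic modular function. -/
noncomputable def j (τ : ℍ) : ℂ := E₄ τ ^ 3 / discriminant τ

/-- `x` and `y` are the `j`-invariants of isogenous elliptic curves: `x = j(τ)`, `y = j(g τ)` for an
integral matrix `g` of positive determinant. -/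
def Isogenous (x y : ℂ) : Prop := ∃ (τ w : ℍ) (a b c d : ℤ), 0 < a * d - b * c ∧
  (w : ℂ) * (c * τ + d) = a * τ + b ∧ x = j τ ∧ y = j w

/-- `x` is the `j`-invariant of an elliptic curve with complex multiplication. -/
def IsCM (x : ℂ) : Prop := ∃ (τ : ℍ) (a b c : ℤ), a ≠ 0 ∧ (a : ℂ) * (τ : ℂ) ^ 2 + b * τ + c = 0 ∧
  x = j τ

variable {n : ℕ}

/-- The dimension of the Mumford–Tate domain of `⊕ H¹(E_i)`, `j(E_i) = x_i`: the number of isogeny
classes of the curves `E_i` without complex multiplication. -/
noncomputable def mtDim (x : Fin n → ℂ) : ℕ :=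
  Set.ncard {C : Set (Fin n) | ∃ i, ¬ IsCM (x i) ∧ C = {k | Isogenous (x i) (x k)}}

/-- `S` is an irreducible closed subvariety of `ℂ^n`. -/
def IsVariety (S : Set (Fin n → ℂ)) : Prop :=
  (vanishingIdeal ℂ S).IsPrime ∧ zeroLocus ℂ (vanishingIdeal ℂ S) ⊆ S

/-- The dimension: the transcendence degree of the coordinate ring. -/
noncomputable def dim (S : Set (Fin n → ℂ)) : ℕ :=
  Cardinal.toNat (Algebra.trdeg ℂ (MvPolynomial (Fin n) ℂ ⧸ vanishingIdeal ℂ S))

/-- The dimension of the generic Mumford–Tate domain. -/
noncomputable def domainDim (S : Set (Fin n → ℂ)) : ℕ := sSup (mtDim '' S)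

/-- `Z` is a special subvariety of `S`. -/
def IsSpecial (S Z : Set (Fin n → ℂ)) : Prop :=
  IsVariety Z ∧ Z ⊆ S ∧
    ∀ Z', IsVariety Z' → Z ⊆ Z' → Z' ⊆ S → domainDim Z' = domainDim Z → Z' = Z

/-- `Z` is an atypical special subvariety of `S`:
`codim Z < codim S + codim D'` in the generic domain of `S`. -/
def IsAtypical (S Z : Set (Fin n → ℂ)) : Prop :=
  IsSpecial S Z ∧ (domainDim S - dim Z : ℤ) <
    (domainDim S - dim S : ℤ) + (domainDim S - domainDim Z : ℤ)

/-- Only finitely many atypical special subvarieties of `S` are maximal. -/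
def Q1 (S : Set (Fin n → ℂ)) : Prop := {Z | Maximal (IsAtypical S) Z}.Finite

/-- Only finitely many maximal atypical special subvarieties are not contained in a suitable
hypersurface `f = 0`, which does not contain `S`. -/
def Q1Generic (S : Set (Fin n → ℂ)) : Prop :=
  ∃ f : MvPolynomial (Fin n) ℂ, (∃ x ∈ S, eval x f ≠ 0) ∧
    {Z | Maximal (IsAtypical S) Z ∧ ∃ x ∈ Z, eval x f ≠ 0}.Finite

/-- For all `V ⊂ ℂ^n` with generic Mumford–Tate domain of dimension `n` the points of `V` with a
Mumford–Tate domain of codimension at least `dim V + t` are not Zariski dense in `V`. -/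
def NotDense (n : ℕ) (t : ℝ) : Prop :=
  ∀ V : Set (Fin n → ℂ), IsVariety V → domainDim V = n →
    ¬ V ⊆ zeroLocus ℂ (vanishingIdeal ℂ {x | x ∈ V ∧ dim V + t ≤ n - mtDim x})

open Pool.Agent.T6.H15

theorem ideal_eq (S : Set (Fin n → ℂ)) : vanishingIdeal ℂ S = ZP.idealOf S := by
  ext p
  rw [mem_vanishingIdeal_iff, ZP.mem_idealOf]
  simp only [aeval_eq_eval]

theorem isCM_iff (x : ℂ) : IsCM x ↔ MZ.Singular x := by
  constructor
  · rintro ⟨τ, a, b, c, ha, h, hx⟩
    exact ⟨τ, ⟨a, b, c, ha, h⟩, hx⟩
  · rintro ⟨τ, ⟨a, b, c, ha, h⟩, hx⟩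
    exact ⟨τ, a, b, c, ha, h, hx⟩

theorem mtDim_eq (x : Fin n → ℂ) : mtDim x = MZ.ncl MZ.Isog {x | MZ.Singular x} x := by
  unfold mtDim MZ.ncl
  congr 1
  ext C
  refine exists_congr fun i => ?_
  rw [isCM_iff]
  rfl

theorem domainDim_eq (S : Set (Fin n → ℂ)) :
    domainDim S = MZ.gd MZ.Isog {x | MZ.Singular x} S := by
  unfold domainDim MZ.gd
  congr 1
  apply Set.image_congr
  intro x _
  exact mtDim_eq x

theorem dim_eq (S : Set (Fin n → ℂ)) : dim S = ZP.dim S := by
  unfold dim ZP.dim
  rw [ideal_eq]

theorem isVariety_iff (S : Set (Fin n → ℂ)) : IsVariety S ↔ MZ.IsVar S := by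
  unfold IsVariety
  rw [ideal_eq]
  constructor
  · rintro ⟨h1, h2⟩
    refine ⟨h1, fun x hx => h2 ?_⟩
    rw [mem_zeroLocus_iff]
    intro p hp
    rw [aeval_eq_eval]
    exact hx p hp
  · rintro ⟨h1, h2⟩
    refine ⟨h1, fun x hx => h2 x fun p hp => ?_⟩
    rw [mem_zeroLocus_iff] at hx
    rw [← aeval_eq_eval]
    exact hx p hp

theorem isSpecial_iff (S Z : Set (Fin n → ℂ)) :
    IsSpecial S Z ↔ MZ.Special MZ.Isog {x | MZ.Singular x} S Z := by
  unfold IsSpecial MZ.Special
  simp only [isVariety_iff, domainDim_eq]

theorem isAtypical_iff (S Z : Set (Fin n → ℂ)) :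
    IsAtypical S Z ↔ MZ.Special MZ.Isog {x | MZ.Singular x} S Z ∧
      MZ.Atyp MZ.Isog {x | MZ.Singular x} S Z := by
  unfold IsAtypical MZ.Atyp
  rw [isSpecial_iff, domainDim_eq, domainDim_eq, dim_eq, dim_eq]
  refine and_congr_right fun _ => ?_
  constructor <;> intro h <;> omega

theorem maximal_iff (S Z : Set (Fin n → ℂ)) : Maximal (IsAtypical S) Z ↔
    (MZ.Special MZ.Isog {x | MZ.Singular x} S Z ∧ MZ.Atyp MZ.Isog {x | MZ.Singular x} S Z) ∧
      ∀ W', MZ.Special MZ.Isog {x | MZ.Singular x} S W' →
        MZ.Atyp MZ.Isog {x | MZ.Singular x} S W' → Z ⊆ W' → W' = Z := by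
  unfold Maximal
  simp only [isAtypical_iff]
  refine and_congr_right fun _ => ?_
  constructor
  · intro h W h1 h2 h3
    exact Set.Subset.antisymm (h ⟨h1, h2⟩ h3) h3
  · rintro h W ⟨h1, h2⟩ h3
    exact (h W h1 h2 h3).le

theorem q1_iff (S : Set (Fin n → ℂ)) : Q1 S ↔ MZ.FinMax MZ.Isog {x | MZ.Singular x} S := by
  unfold Q1 MZ.FinMax
  simp only [maximal_iff]

theorem exists_iff (Z : Set (Fin n → ℂ)) (f : MvPolynomial (Fin n) ℂ) :
    (∃ x ∈ Z, eval x f ≠ 0) ↔ f ∉ ZP.idealOf Z := by
  rw [ZP.mem_idealOf]
  push Not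
  rfl

theorem q1Generic_iff (S : Set (Fin n → ℂ)) :
    Q1Generic S ↔ MZ.FinOff MZ.Isog {x | MZ.Singular x} S := by
  unfold Q1Generic MZ.FinOff
  simp only [maximal_iff, exists_iff]

theorem notDense_iff (n : ℕ) (t : ℝ) :
    NotDense n t ↔ MZ.ND MZ.Isog {x | MZ.Singular x} n t := by
  unfold NotDense MZ.ND
  refine forall_congr' fun V => ?_
  rw [isVariety_iff, domainDim_eq]
  refine imp_congr_right fun _ => imp_congr_right fun _ => ?_
  rw [Set.not_subset]
  constructor
  · rintro ⟨y, hy, h⟩
    rw [mem_zeroLocus_iff] at h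
    push Not at h
    obtain ⟨f, hf, hfy⟩ := h
    rw [aeval_eq_eval] at hfy
    refine ⟨f, ZP.not_mem_of_eval hy hfy, fun x hx hle => ?_⟩
    rw [mem_vanishingIdeal_iff] at hf
    rw [← aeval_eq_eval]
    refine hf x ⟨hx, ?_⟩
    rw [mtDim_eq, dim_eq]
    linarith
  · rintro ⟨f, hf, h⟩
    obtain ⟨y, hy, hfy⟩ := ZP.exists_of_not_mem hf
    refine ⟨y, hy, fun hcon => hfy ?_⟩
    rw [mem_zeroLocus_iff] at hcon
    rw [← aeval_eq_eval]
    apply hcon
    rw [mem_vanishingIdeal_iff]
    rintro x ⟨hx, hle⟩
    rw [aeval_eq_eval]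
    refine h x hx ?_
    rw [mtDim_eq, dim_eq] at hle
    linarith

/-- Q1 for all subvarieties of all `Y(1)^n` is equivalent to the non-density of points with a
Mumford–Tate domain of codimension at least `dim V + φ(n)`, for infinitely many `n`, and to the same with
`ε n` for every `ε > 0`. -/
theorem result (φ : ℕ → ℕ) (hφ1 : ∀ n, 1 ≤ φ n)
    (hφ : Filter.Tendsto (fun n : ℕ => (φ n : ℝ) / n) Filter.atTop (nhds 0)) :
    List.TFAE [
      ∀ (n : ℕ) (S : Set (Fin n → ℂ)), IsVariety S → Q1 S,
      ∀ (n : ℕ) (S : Set (Fin n → ℂ)), IsVariety S → Q1Generic S,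
      ∀ n : ℕ, NotDense n 1,
      ∀ m : ℕ, ∃ n, m ≤ n ∧ NotDense n (φ n),
      ∀ ε : ℝ, 0 < ε → ∀ m : ℕ, ∃ n, m ≤ n ∧ NotDense n (ε * n)] ∧
    ∀ ε : ℝ, 0 < ε → (∀ m : ℕ, ∃ n, m ≤ n ∧ NotDense n (ε * n)) →
      ∀ (n : ℕ), ε * n < 1 → ∀ S : Set (Fin n → ℂ), IsVariety S → Q1 S := by
  simp only [isVariety_iff, q1_iff, q1Generic_iff, notDense_iff]
  exact ⟨MZ.main MZ.corr φ hφ hφ1, fun ε hε H n hn S hS => MZ.finMax_of_ND MZ.corr hε H hn hS⟩

end Pool.Agent.Results.MP_0704bf_ag.StronglyAtypicalPoints
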